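import Pool.Agent.Y738.PE.Stm

set_option autoImplicit false

/-! # Project PE, J8: unique gapped ground states have translation invariant expectations -/

open scoped BigOperators ComplexConjugate Classical

noncomputable section

namespace Pool.Agent.Y918.PE

open Pool.Agent.Y738.PE

variable {d L : ℕ}

/-- translation of configurations -/
def shE (a : Site L) : Equiv.Perm (Conf d L) where
  toFun s := fun w => s (w + a)
  invFun s := fun w => s (w - a)
  left_inv s := by funext w; simp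
  right_inv s := by funext w; simp

theorem box_sh (r : ℕ) (s : Conf d L) (a v : Site L) : box r (shE a s) v = box r s (v + a) := by
  funext p
  show s ((v.1 + ((p.1 : ℕ) : ZMod L), v.2 + ((p.2 : ℕ) : ZMod L)) + a) =
    s ((v + a).1 + ((p.1 : ℕ) : ZMod L), (v + a).2 + ((p.2 : ℕ) : ZMod L))
  congr 1
  ext
  · show v.1 + ((p.1 : ℕ) : ZMod L) + a.1 = v.1 + a.1 + ((p.1 : ℕ) : ZMod L)
    ring
  · show v.2 + ((p.2 : ℕ) : ZMod L) + a.2 = v.2 + a.2 + ((p.2 : ℕ) : ZMod L)
    ring

theorem put_sh {r : ℕ} (s : Conf d L) (a v : Site L) (τ : BConf d r) :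
    put (shE a s) v τ = shE a (put s (v + a) τ) := by
  funext w
  have e1 : (w + a).1 - (v + a).1 = w.1 - v.1 := by
    show w.1 + a.1 - (v.1 + a.1) = w.1 - v.1
    ring
  have e2 : (w + a).2 - (v + a).2 = w.2 - v.2 := by
    show w.2 + a.2 - (v.2 + a.2) = w.2 - v.2
    ring
  show put (shE a s) v τ w = put s (v + a) τ (w + a)
  unfold put
  simp only [e1, e2]
  rfl

variable [NeZero L]

theorem ham_sh {k : ℕ} (h : BConf d k → BConf d k → ℂ) (Ψ : Conf d L → ℂ) (a : Site L)
    (s : Conf d L) : ham h L (fun s => Ψ (shE a s)) s = ham h L Ψ (shE a s) := by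
  unfold ham
  symm
  refine Eq.trans ?_ (Equiv.sum_comp (Equiv.addRight a)
    (fun v => ∑ τ : BConf d k, h (box k s v) τ * Ψ (shE a (put s v τ))))
  refine Finset.sum_congr rfl fun v _ => Finset.sum_congr rfl fun τ _ => ?_
  rw [box_sh, put_sh]
  rfl

theorem nrm_sh (Ψ : Conf d L → ℂ) (a : Site L) : nrm (fun s => Ψ (shE a s)) = nrm Ψ :=
  Equiv.sum_comp (shE a) (fun s => ‖Ψ s‖ ^ 2)

theorem expec_sh {r : ℕ} (Ψ : Conf d L → ℂ) (a v : Site L) (B : BConf d r → BConf d r → ℂ) :
    expec Ψ v B = expec (fun s => Ψ (shE a s)) (v + a) B := by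
  unfold expec
  rw [← Equiv.sum_comp (shE a)]
  refine Finset.sum_congr rfl fun s _ => Finset.sum_congr rfl fun τ _ => ?_
  rw [box_sh, put_sh]

theorem nrm_eq {S : Type} [Fintype S] (f : S → ℂ) : ((nrm f : ℝ) : ℂ) = ∑ s, conj (f s) * f s := by
  unfold nrm
  push_cast
  refine Finset.sum_congr rfl fun s _ => ?_
  rw [Complex.conj_mul']

theorem groundTI : StmGroundTI := by
  intro d k L _ h Δ hΔ Ψ hΨ r v B
  obtain ⟨h1, E, hE, hgap⟩ := hΨ
  set T : Conf d L → ℂ := fun s => Ψ (shE (-v) s) with hT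
  set c : ℂ := ∑ s, conj (Ψ s) * T s with hc
  set φ : Conf d L → ℂ := fun s => T s - c * Ψ s with hφ
  have hn : (∑ s, conj (Ψ s) * Ψ s) = 1 := by
    rw [← nrm_eq, h1]; simp
  have horth : ∑ s, conj (Ψ s) * φ s = 0 := by
    have : ∀ s, conj (Ψ s) * φ s = conj (Ψ s) * T s - c * (conj (Ψ s) * Ψ s) := fun s => by
      simp only [hφ]; ring
    rw [Finset.sum_congr rfl fun s _ => this s, Finset.sum_sub_distrib, ← Finset.mul_sum, hn,
      ← hc, mul_one, sub_self]
  have hTE : ∀ s, ham h L T s = E * T s := fun s => by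
    rw [hT, ham_sh]
    exact hE _
  have hφE : ∀ s, ham h L φ s = E * φ s := by
    intro s
    have e1 : ham h L φ s = ham h L T s - c * ham h L Ψ s := by
      unfold ham
      rw [Finset.mul_sum, ← Finset.sum_sub_distrib]
      refine Finset.sum_congr rfl fun v _ => ?_
      rw [Finset.mul_sum, ← Finset.sum_sub_distrib]
      refine Finset.sum_congr rfl fun τ _ => ?_
      simp only [hφ]
      ring
    rw [e1, hTE, hE]
    simp only [hφ]
    ring
  have h2 := hgap φ horth
  have h3 : (∑ s, conj (φ s) * ham h L φ s).re = E * nrm φ := by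
    have e1 : ∑ s, conj (φ s) * ham h L φ s = ((E * nrm φ : ℝ) : ℂ) := by
      rw [Complex.ofReal_mul, nrm_eq, Finset.mul_sum]
      refine Finset.sum_congr rfl fun s _ => ?_
      rw [hφE]
      ring
    rw [e1, Complex.ofReal_re]
  rw [h3] at h2
  have h4 : 0 ≤ nrm φ := Finset.sum_nonneg fun s _ => by positivity
  have h5 : nrm φ = 0 := by
    have : Δ * nrm φ ≤ 0 := by linarith
    nlinarith
  have h6 : ∀ s, T s = c * Ψ s := by
    intro s
    have := (Finset.sum_eq_zero_iff_of_nonneg (fun s _ => by positivity)).1 h5 s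
      (Finset.mem_univ s)
    have h7 : φ s = 0 := by
      rw [← norm_eq_zero]
      exact pow_eq_zero_iff (two_ne_zero) |>.1 this
    exact sub_eq_zero.1 h7
  have hcc : conj c * c = 1 := by
    have e1 : nrm T = 1 := (nrm_sh Ψ (-v)).trans h1
    have e2 : ((nrm T : ℝ) : ℂ) = conj c * c * ∑ s, conj (Ψ s) * Ψ s := by
      rw [nrm_eq, Finset.mul_sum]
      refine Finset.sum_congr rfl fun s _ => ?_
      rw [h6, map_mul]
      ring
    rw [hn, e1, mul_one] at e2
    rw [← e2]
    simp
  rw [expec_sh Ψ (-v) v B, add_neg_cancel]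
  show expec T 0 B = expec Ψ 0 B
  unfold expec
  refine Finset.sum_congr rfl fun s _ => Finset.sum_congr rfl fun τ _ => ?_
  rw [h6, h6, map_mul]
  calc conj c * conj (Ψ s) * B (box r s 0) τ * (c * Ψ (put s 0 τ))
      = (conj c * c) * (conj (Ψ s) * B (box r s 0) τ * Ψ (put s 0 τ)) := by ring
    _ = _ := by rw [hcc, one_mul]

end Pool.Agent.Y918.PE
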